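import Mathlib
import Pool.Agent.Lib.MP_f9aece_nt.Scales

/-!
# Mertens upper bound on a logarithmic interval, and the groups of primes

`VV_le_log`: the sum of the reciprocals of the primes with `y < log p ≤ Y` is at most
`1 + log (Y / y) + log 4 / y`.  The group `Sg Y v p0 g` consists of the primes `p > p0` with
`Yg (g + 1) < log p ≤ Yg g`, where `Yg g = Y exp (- v g (g + 1) / 2)`; its parameter is
`rg v g = v (g + 1)`.
-/

set_option autoImplicit false

namespace Pool.Agent.Lib.MP_f9aece_nt_h6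

open Finset MeasureTheory Pool.Agent.Lib.MP_f9aece_nt

/-- Mertens' second theorem, upper bound, between two points of the logarithmic scale -/
lemma VV_le_log {y Y : ℝ} (hy : 0 < y) (hyY : y ≤ Y) (s : Finset ℕ)
    (hs : ∀ p ∈ s, p.Prime ∧ y < Real.log p ∧ Real.log p ≤ Y) :
    VV s ≤ 1 + Real.log (Y / y) + Real.log 4 / y := by
  have hY : 0 < Y := hy.trans_le hyY
  set c := Real.log 4 with hc
  have hc0 : 0 ≤ c := Real.log_nonneg (by norm_num)
  -- partial sums
  have hpart : ∀ u : ℝ, 0 < u → ∀ s' : Finset ℕ, (∀ p ∈ s', p.Prime ∧ Real.log p ≤ u) →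
      ∑ p ∈ s', Real.log p / p ≤ u + c := by
    intro u hu s' hs'
    have hn : 1 ≤ ⌊Real.exp u⌋₊ := by
      apply Nat.le_floor
      simpa using Real.one_le_exp hu.le
    have hn0 : (0 : ℝ) < ⌊Real.exp u⌋₊ := by exact_mod_cast hn
    have hsub : s' ⊆ (Ioc 0 ⌊Real.exp u⌋₊).filter Nat.Prime := by
      intro p hp
      obtain ⟨h1, h3⟩ := hs' p hp
      rw [Finset.mem_filter, Finset.mem_Ioc]
      refine ⟨⟨h1.pos, ?_⟩, h1⟩
      apply Nat.le_floor
      rw [← Real.log_le_iff_le_exp (by exact_mod_cast h1.pos)]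
      exact h3
    have h1 : ∑ p ∈ s', Real.log p / p ≤ ∑ p ∈ Ioc 0 ⌊Real.exp u⌋₊ with p.Prime, Real.log p / p :=
      Finset.sum_le_sum_of_subset_of_nonneg hsub fun p _ _ =>
        div_nonneg (Real.log_natCast_nonneg p) (Nat.cast_nonneg p)
    have h2 := sum_log_div_le hn
    have h3 : Real.log ⌊Real.exp u⌋₊ ≤ u := by
      rw [Real.log_le_iff_le_exp hn0]
      exact Nat.floor_le (Real.exp_pos u).le
    linarith
  -- the weight
  let h : ℝ → ℝ := fun u => (u ^ 2)⁻¹
  have hcont : ∀ a : ℝ, 0 < a → ContinuousOn h (Set.Icc a Y) := by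
    intro a ha u hu
    have : u ≠ 0 := by have := hu.1; linarith
    exact ((continuous_pow 2).continuousAt.inv₀ (pow_ne_zero 2 this)).continuousWithinAt
  have hint : ∀ a : ℝ, 0 < a → IntegrableOn h (Set.Ioc a Y) := fun a ha =>
    ((hcont a ha).integrableOn_Icc).mono_set Set.Ioc_subset_Icc_self
  have hFTC : ∀ a : ℝ, 0 < a → a ≤ Y → ∫ u in Set.Ioc a Y, h u = 1 / a - 1 / Y := by
    intro a ha haY
    rw [← intervalIntegral.integral_of_le haY,
      intervalIntegral.integral_eq_sub_of_hasDerivAt (f := fun u => -u⁻¹) (f' := h)]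
    · simp only [one_div]; ring
    · intro u hu
      rw [Set.uIcc_of_le haY] at hu
      have hu0 : u ≠ 0 := by have := hu.1; linarith
      have h0 := (hasDerivAt_inv hu0).neg
      rw [neg_neg] at h0
      exact h0
    · rw [intervalIntegrable_iff_integrableOn_Ioc_of_le haY]
      exact hint a ha
  -- sum over the primes
  have h1 : ∀ p ∈ s, (p : ℝ)⁻¹ = Real.log p / p * (1 / Y) +
      ∫ u in Set.Ioc y Y, Real.log p / p * (Set.Ioi (Real.log p)).indicator h u := by
    intro p hp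
    obtain ⟨hp1, hp2, hp3⟩ := hs p hp
    have hp0 : (0 : ℝ) < p := by exact_mod_cast hp1.pos
    have hl : 0 < Real.log p := hy.trans hp2
    rw [integral_const_mul, setIntegral_indicator measurableSet_Ioi]
    have he : Set.Ioc y Y ∩ Set.Ioi (Real.log p) = Set.Ioc (Real.log p) Y := by
      ext u
      simp only [Set.mem_inter_iff, Set.mem_Ioc, Set.mem_Ioi]
      constructor
      · rintro ⟨⟨-, h2⟩, h3⟩; exact ⟨h3, h2⟩
      · rintro ⟨h3, h2⟩; exact ⟨⟨hp2.trans h3, h2⟩, h3⟩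
    rw [he, hFTC _ hl hp3]
    field_simp
    ring
  unfold VV
  rw [Finset.sum_congr rfl h1, Finset.sum_add_distrib, ← Finset.sum_mul, ← integral_finsetSum]
  · have h2 : (∑ p ∈ s, Real.log p / p) * (1 / Y) ≤ 1 + c / Y := by
      have := hpart Y hY s fun p hp => ⟨(hs p hp).1, (hs p hp).2.2⟩
      calc (∑ p ∈ s, Real.log p / p) * (1 / Y) ≤ (Y + c) * (1 / Y) := by gcongr
        _ = 1 + c / Y := by field_simp
    have h3 : ∫ u in Set.Ioc y Y, ∑ p ∈ s, Real.log p / p * (Set.Ioi (Real.log p)).indicator h u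
        ≤ ∫ u in Set.Ioc y Y, (u⁻¹ + c * h u) := by
      apply setIntegral_mono_on
      · apply integrable_finsetSum
        intro p _
        exact ((hint y hy).indicator measurableSet_Ioi).const_mul _
      · apply IntegrableOn.add
        · have : ContinuousOn (fun u : ℝ => u⁻¹) (Set.Icc y Y) := by
            intro u hu
            have : u ≠ 0 := by have := hu.1; linarith
            exact (continuousAt_inv₀ this).continuousWithinAt
          exact this.integrableOn_Icc.mono_set Set.Ioc_subset_Icc_self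
        · exact (hint y hy).const_mul c
      · exact measurableSet_Ioc
      · intro u hu
        have hu0 : 0 < u := hy.trans hu.1
        have h4 : ∑ p ∈ s, Real.log p / p * (Set.Ioi (Real.log p)).indicator h u =
            (∑ p ∈ s.filter (fun p : ℕ => Real.log p < u), Real.log p / p) * h u := by
          rw [Finset.sum_mul, Finset.sum_filter]
          refine Finset.sum_congr rfl fun p _ => ?_
          by_cases hpu : Real.log p < u
          · rw [if_pos hpu, Set.indicator_of_mem (Set.mem_Ioi.mpr hpu)]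
          · rw [if_neg hpu, Set.indicator_of_notMem (by simpa using hpu), mul_zero]
        rw [h4]
        have h5 := hpart u hu0 (s.filter (fun p : ℕ => Real.log p < u)) (by
          intro p hp
          rw [Finset.mem_filter] at hp
          exact ⟨(hs p hp.1).1, hp.2.le⟩)
        have h6 : 0 ≤ h u := by simp only [h]; positivity
        calc (∑ p ∈ s.filter (fun p : ℕ => Real.log p < u), Real.log p / p) * h u ≤ (u + c) * h u := by
              gcongr
          _ = u⁻¹ + c * h u := by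
              simp only [h]
              field_simp
    have h7 : ∫ u in Set.Ioc y Y, (u⁻¹ + c * h u) = Real.log (Y / y) + c * (1 / y - 1 / Y) := by
      rw [← intervalIntegral.integral_of_le hyY,
        intervalIntegral.integral_eq_sub_of_hasDerivAt
          (f := fun u => Real.log u + c * (-u⁻¹)) (f' := fun u => u⁻¹ + c * h u)]
      · rw [Real.log_div hY.ne' hy.ne']; ring
      · intro u hu
        rw [Set.uIcc_of_le hyY] at hu
        have hu0 : u ≠ 0 := by have := hu.1; linarith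
        have h8 := (hasDerivAt_inv hu0).neg
        rw [neg_neg] at h8
        exact (Real.hasDerivAt_log hu0).add (h8.const_mul c)
      · rw [intervalIntegrable_iff_integrableOn_Ioc_of_le hyY]
        apply IntegrableOn.add
        · have : ContinuousOn (fun u : ℝ => u⁻¹) (Set.Icc y Y) := by
            intro u hu
            have : u ≠ 0 := by have := hu.1; linarith
            exact (continuousAt_inv₀ this).continuousWithinAt
          exact this.integrableOn_Icc.mono_set Set.Ioc_subset_Icc_self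
        · exact (hint y hy).const_mul c
    have h10 : c * (1 / y - 1 / Y) = c / y - c / Y := by ring
    linarith
  · intro p _
    exact ((hint y hy).indicator measurableSet_Ioi).const_mul _


/-- upper ends of the groups of primes, on the logarithmic scale -/
noncomputable def Yg (Y v : ℝ) (g : ℕ) : ℝ := Y * Real.exp (-(v * ((g : ℝ) * (g + 1) / 2)))

/-- the parameter of the group `g` -/
noncomputable def rg (v : ℝ) (g : ℕ) : ℝ := v * (g + 1)

/-- the groups of primes -/
noncomputable def Sg (Y v : ℝ) (p0 g : ℕ) : Finset ℕ :=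
  (Finset.Icc 1 ⌊Real.exp Y⌋₊).filter
    (fun p => p.Prime ∧ p0 < p ∧ Yg Y v (g + 1) < Real.log p ∧ Real.log p ≤ Yg Y v g)

variable {Y v : ℝ} {p0 : ℕ}

lemma mem_Sg {g p : ℕ} : p ∈ Sg Y v p0 g ↔
    p ∈ Finset.Icc 1 ⌊Real.exp Y⌋₊ ∧ p.Prime ∧ p0 < p ∧ Yg Y v (g + 1) < Real.log p ∧
      Real.log p ≤ Yg Y v g := by
  rw [Sg, Finset.mem_filter]

lemma Sg_prime {g p : ℕ} (h : p ∈ Sg Y v p0 g) : p.Prime := (mem_Sg.mp h).2.1

lemma Sg_gt {g p : ℕ} (h : p ∈ Sg Y v p0 g) : p0 < p := (mem_Sg.mp h).2.2.1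

lemma Sg_log_le {g p : ℕ} (h : p ∈ Sg Y v p0 g) : Real.log p ≤ Yg Y v g := (mem_Sg.mp h).2.2.2.2

lemma lt_Sg_log {g p : ℕ} (h : p ∈ Sg Y v p0 g) : Yg Y v (g + 1) < Real.log p :=
  (mem_Sg.mp h).2.2.2.1

@[simp] lemma Yg_zero : Yg Y v 0 = Y := by simp [Yg]

lemma Yg_succ (g : ℕ) : Yg Y v (g + 1) = Yg Y v g * Real.exp (-rg v g) := by
  unfold Yg rg
  rw [mul_assoc, ← Real.exp_add]
  congr 2
  push_cast
  ring

lemma rg_nonneg (hv : 0 ≤ v) (g : ℕ) : 0 ≤ rg v g := by unfold rg; positivity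

lemma Yg_pos (hY : 0 < Y) (g : ℕ) : 0 < Yg Y v g := by unfold Yg; positivity

lemma Yg_succ_le (hY : 0 < Y) (hv : 0 ≤ v) (g : ℕ) : Yg Y v (g + 1) ≤ Yg Y v g := by
  rw [Yg_succ]
  apply mul_le_of_le_one_right (Yg_pos hY g).le
  rw [Real.exp_le_one_iff]
  have := rg_nonneg hv g
  linarith

lemma Yg_anti (hY : 0 < Y) (hv : 0 ≤ v) : Antitone (Yg Y v) :=
  antitone_nat_of_succ_le fun g => Yg_succ_le hY hv g

lemma Yg_le (hY : 0 < Y) (hv : 0 ≤ v) (g : ℕ) : Yg Y v g ≤ Y := by
  have := Yg_anti hY hv (Nat.zero_le g)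
  simpa using this

lemma Sg_disjoint (hY : 0 < Y) (hv : 0 ≤ v) {i j : ℕ} (h : i ≠ j) :
    Disjoint (Sg Y v p0 i) (Sg Y v p0 j) := by
  rw [Finset.disjoint_left]
  intro p hi hj
  rcases lt_or_gt_of_ne h with h | h
  · have h1 := Yg_anti hY hv (show i + 1 ≤ j from h)
    have h2 := lt_Sg_log hi
    have h3 := Sg_log_le hj
    linarith
  · have h1 := Yg_anti hY hv (show j + 1 ≤ i from h)
    have h2 := lt_Sg_log hj
    have h3 := Sg_log_le hi
    linarith

/-- the basic estimate for the sum of reciprocals over a group -/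
lemma VV_Sg_le_add (hY : 0 < Y) (hv : 0 ≤ v) (g : ℕ) :
    VV (Sg Y v p0 g) ≤ rg v g + 4 := by
  rcases (Sg Y v p0 g).eq_empty_or_nonempty with h0 | ⟨q, hq⟩
  · rw [h0]
    have := rg_nonneg hv g
    simp only [VV, Finset.sum_empty]
    linarith
  have hl2 : (1 : ℝ) / 2 < Real.log 2 := by
    have := Real.log_two_gt_d9
    linarith
  have hl2' : Real.log 2 < 3 / 4 := by
    have := Real.log_two_lt_d9
    linarith
  have hl4 : Real.log 4 = 2 * Real.log 2 := by
    rw [show (4 : ℝ) = 2 ^ 2 by norm_num, Real.log_pow]; norm_num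
  have hlog : ∀ p ∈ Sg Y v p0 g, 1 / 2 < Real.log p := by
    intro p hp
    refine hl2.trans_le (Real.log_le_log (by norm_num) ?_)
    exact_mod_cast (Sg_prime hp).two_le
  set y := max (Yg Y v (g + 1)) (1 / 2) with hy
  have hy0 : 0 < y := lt_of_lt_of_le (by norm_num) (le_max_right _ _)
  have hyp : ∀ p ∈ Sg Y v p0 g, y < Real.log p := fun p hp => max_lt (lt_Sg_log hp) (hlog p hp)
  have h1 := VV_le_log hy0 ((hyp q hq).le.trans (Sg_log_le hq)) (Sg Y v p0 g)
      (fun p hp => ⟨Sg_prime hp, hyp p hp, Sg_log_le hp⟩)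
  have h2 : Real.log (Yg Y v g / Yg Y v (g + 1)) = rg v g := by
    rw [Yg_succ, div_mul_eq_div_div, div_self (Yg_pos hY g).ne', one_div, ← Real.exp_neg, neg_neg,
      Real.log_exp]
  have h3 : Real.log (Yg Y v g / y) ≤ rg v g := by
    rw [← h2]
    apply Real.log_le_log (div_pos (Yg_pos hY g) hy0)
    exact div_le_div_of_nonneg_left (Yg_pos hY g).le (Yg_pos hY _) (le_max_left _ _)
  have h4 : Real.log 4 / y ≤ 3 := by
    rw [div_le_iff₀ hy0, hl4]
    have : 1 / 2 ≤ y := le_max_right _ _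
    linarith
  linarith

lemma VV_Sg_le (hY : 0 < Y) (hv : 4 ≤ v) (g : ℕ) :
    VV (Sg Y v p0 g) ≤ 2 * rg v g := by
  have h1 := VV_Sg_le_add (p0 := p0) hY (by linarith : 0 ≤ v) g
  have h2 : 4 ≤ rg v g := by
    unfold rg
    have : (0 : ℝ) ≤ g := Nat.cast_nonneg g
    nlinarith
  linarith

/-- all primes in `(p0, e ^ Y]` -/
noncomputable def Pall (Y : ℝ) (p0 : ℕ) : Finset ℕ :=
  (Finset.Icc 1 ⌊Real.exp Y⌋₊).filter (fun p => p.Prime ∧ p0 < p)

lemma mem_Pall {p : ℕ} : p ∈ Pall Y p0 ↔ p ∈ Finset.Icc 1 ⌊Real.exp Y⌋₊ ∧ p.Prime ∧ p0 < p := by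
  rw [Pall, Finset.mem_filter]

lemma Pall_log_le {p : ℕ} (hp : p ∈ Pall Y p0) : Real.log p ≤ Y := by
  obtain ⟨h1, h2, -⟩ := mem_Pall.mp hp
  rw [Real.log_le_iff_le_exp (by exact_mod_cast h2.pos)]
  exact (Nat.le_floor_iff (Real.exp_pos Y).le).mp (Finset.mem_Icc.mp h1).2

lemma Sg_subset_Pall (g : ℕ) : Sg Y v p0 g ⊆ Pall Y p0 := by
  intro p hp
  have := mem_Sg.mp hp
  exact mem_Pall.mpr ⟨this.1, this.2.1, this.2.2.1⟩

lemma biUnion_subset_Pall (J : ℕ) : (Finset.range J).biUnion (Sg Y v p0) ⊆ Pall Y p0 := by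
  intro p hp
  obtain ⟨g, -, hg⟩ := Finset.mem_biUnion.mp hp
  exact Sg_subset_Pall g hg

/-- the groups exhaust the primes in `(p0, e ^ Y]` -/
lemma biUnion_eq_Pall (hp0 : 1 ≤ p0) {J : ℕ} (hJ : Yg Y v J ≤ Real.log p0) :
    (Finset.range J).biUnion (Sg Y v p0) = Pall Y p0 := by
  apply subset_antisymm (biUnion_subset_Pall J)
  intro p hp
  obtain ⟨h1, h2, h3⟩ := mem_Pall.mp hp
  have hlt : Real.log p0 < Real.log p := by
    apply Real.log_lt_log
    · exact_mod_cast hp0
    · exact_mod_cast h3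
  classical
  have hex : ∃ j, Yg Y v (j + 1) < Real.log p := by
    rcases J with _ | J
    · have h4 := Pall_log_le hp
      rw [Yg_zero] at hJ
      linarith
    · exact ⟨J, hJ.trans_lt hlt⟩
  set j := Nat.find hex with hj
  have hj1 : Yg Y v (j + 1) < Real.log p := Nat.find_spec hex
  have hj2 : Real.log p ≤ Yg Y v j := by
    rcases Nat.eq_zero_or_pos j with h0 | h0
    · rw [h0, Yg_zero]; exact Pall_log_le hp
    · have := Nat.find_min hex (m := j - 1) (by omega)
      rw [not_lt] at this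
      have e : j - 1 + 1 = j := by omega
      rw [e] at this
      exact this
  have hjJ : j < J := by
    rcases J with _ | J
    · have h4 := Pall_log_le hp
      rw [Yg_zero] at hJ
      linarith
    · have : j ≤ J := Nat.find_min' hex (hJ.trans_lt hlt)
      omega
  rw [Finset.mem_biUnion]
  exact ⟨j, Finset.mem_range.mpr hjJ, mem_Sg.mpr ⟨h1, h2, h3, hj1, hj2⟩⟩

lemma sum_VV_Sg (hY : 0 < Y) (hv : 0 ≤ v) (J : ℕ) :
    ∑ g ∈ Finset.range J, VV (Sg Y v p0 g) = VV ((Finset.range J).biUnion (Sg Y v p0)) := by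
  unfold VV
  rw [Finset.sum_biUnion]
  intro i _ j _ hij
  exact Sg_disjoint hY hv hij

lemma VV_mono {s t : Finset ℕ} (h : s ⊆ t) : VV s ≤ VV t :=
  Finset.sum_le_sum_of_subset_of_nonneg h fun p _ _ => by positivity

lemma VV_Pall_le (hY : 1 ≤ Y) : VV (Pall Y p0) ≤ Real.log Y + 5 := by
  have hl2 : (1 : ℝ) / 2 < Real.log 2 := by
    have := Real.log_two_gt_d9
    linarith
  have hl2' : Real.log 2 < 3 / 4 := by
    have := Real.log_two_lt_d9
    linarith
  have hl4 : Real.log 4 = 2 * Real.log 2 := by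
    rw [show (4 : ℝ) = 2 ^ 2 by norm_num, Real.log_pow]; norm_num
  have h1 := VV_le_log (y := 1 / 2) (Y := Y) (by norm_num) (by linarith) (Pall Y p0) (by
    intro p hp
    refine ⟨(mem_Pall.mp hp).2.1, ?_, Pall_log_le hp⟩
    refine hl2.trans_le (Real.log_le_log (by norm_num) ?_)
    exact_mod_cast (mem_Pall.mp hp).2.1.two_le)
  have h2 : Real.log (Y / (1 / 2)) = Real.log Y + Real.log 2 := by
    rw [div_div_eq_mul_div, div_one, Real.log_mul (by linarith) (by norm_num)]
  rw [h2, hl4] at h1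
  linarith

lemma VV_Pall_ge (hY : 1 ≤ Y) : Real.log Y - 2 - Real.log p0 ≤ VV (Pall Y p0) := by
  have hY0 : 0 < Y := by linarith
  set N := ⌊Real.exp Y⌋₊ + 1 with hN
  have hexp : 2 ≤ Real.exp Y := by
    have h1 := Real.add_one_le_exp Y
    linarith
  have hN2 : 2 ≤ N := by
    have : 1 ≤ ⌊Real.exp Y⌋₊ := Nat.le_floor (by push_cast; linarith)
    omega
  have hNY : Real.exp Y < N := by
    rw [hN]; push_cast; exact Nat.lt_floor_add_one _
  have h1 := sum_inv_primes_ge hN2
  have h2 : Real.log Y ≤ Real.log (Real.log N) := by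
    apply Real.log_le_log hY0
    rw [Real.le_log_iff_exp_le (by linarith)]
    exact hNY.le
  have h3 : N.primesBelow ⊆ Finset.Icc 1 p0 ∪ Pall Y p0 := by
    intro p hp
    have hp1 := Nat.prime_of_mem_primesBelow hp
    have hp2 := Nat.lt_of_mem_primesBelow hp
    rw [Finset.mem_union]
    rcases le_or_gt p p0 with h | h
    · left
      rw [Finset.mem_Icc]
      exact ⟨hp1.one_le, h⟩
    · right
      exact mem_Pall.mpr ⟨Finset.mem_Icc.mpr ⟨hp1.one_le, by omega⟩, hp1, h⟩
  have h4 : ∑ p ∈ N.primesBelow, (p : ℝ)⁻¹ ≤ ∑ p ∈ Finset.Icc 1 p0, (p : ℝ)⁻¹ + VV (Pall Y p0) := by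
    refine (Finset.sum_le_sum_of_subset_of_nonneg h3 fun p _ _ => by positivity).trans ?_
    unfold VV
    rw [← Finset.sum_union_inter]
    have : 0 ≤ ∑ p ∈ Finset.Icc 1 p0 ∩ Pall Y p0, (p : ℝ)⁻¹ :=
      Finset.sum_nonneg fun p _ => by positivity
    linarith
  have h5 := sum_inv_primes_le p0 (Finset.Icc 1 p0) (Finset.Subset.refl _)
  linarith

lemma sum_sq_Pall_le (hp0 : 1 ≤ p0) (s : Finset ℕ) (hs : s ⊆ Pall Y p0) :
    ∑ p ∈ s, ((p : ℝ)⁻¹) ^ 2 ≤ 1 / p0 :=
  sum_inv_sq_le p0 hp0 _ fun _ hp => (mem_Pall.mp (hs hp)).2.2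

/-- the first index at which the groups reach `log p0` -/
lemma exists_J (hY : 0 < Y) (hv : 0 < v) (hp0 : 2 ≤ p0) (hYp : Real.log p0 < Y) :
    ∃ J : ℕ, 1 ≤ J ∧ Yg Y v J ≤ Real.log p0 ∧ (∀ g < J, Real.log p0 < Yg Y v g) ∧
      v * (((J : ℝ) - 1) * J / 2) < Real.log (Y / Real.log p0) := by
  classical
  have hlp : 0 < Real.log p0 := Real.log_pos (by exact_mod_cast (by omega : 1 < p0))
  have hex : ∃ J : ℕ, Yg Y v J ≤ Real.log p0 := by
    obtain ⟨n, hn⟩ := exists_nat_gt (Real.log (Y / Real.log p0) / v)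
    refine ⟨n, ?_⟩
    unfold Yg
    have h1 : Real.log (Y / Real.log p0) < n * v := (div_lt_iff₀ hv).mp hn
    have h2 : Real.log (Y / Real.log p0) ≤ v * ((n : ℝ) * (n + 1) / 2) := by
      rcases Nat.eq_zero_or_pos n with h0 | h0
      · subst h0
        simp only [Nat.cast_zero, zero_mul] at h1
        simpa using h1.le
      · have h3 : (1 : ℝ) ≤ n := by exact_mod_cast h0
        have h4 : (n : ℝ) ≤ (n : ℝ) * (n + 1) / 2 := by nlinarith
        calc Real.log (Y / Real.log p0) ≤ n * v := h1.le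
          _ = v * n := mul_comm _ _
          _ ≤ v * ((n : ℝ) * (n + 1) / 2) := mul_le_mul_of_nonneg_left h4 hv.le
    have h4 : Y / Real.log p0 ≤ Real.exp (v * ((n : ℝ) * (n + 1) / 2)) := by
      rw [← Real.log_le_iff_le_exp (div_pos hY hlp)]
      exact h2
    rw [Real.exp_neg, ← div_eq_mul_inv, div_le_iff₀ (Real.exp_pos _)]
    rw [div_le_iff₀ hlp] at h4
    linarith
  set J := Nat.find hex with hJ
  have hJ1 : Yg Y v J ≤ Real.log p0 := Nat.find_spec hex
  have hJ2 : ∀ g < J, Real.log p0 < Yg Y v g := fun g hg => not_le.mp (Nat.find_min hex hg)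
  have hJ0 : 1 ≤ J := by
    rcases Nat.eq_zero_or_pos J with h0 | h0
    · rw [h0, Yg_zero] at hJ1
      linarith
    · exact h0
  refine ⟨J, hJ0, hJ1, hJ2, ?_⟩
  have h5 := hJ2 (J - 1) (by omega)
  unfold Yg at h5
  rw [Real.exp_neg, ← div_eq_mul_inv, lt_div_iff₀ (Real.exp_pos _)] at h5
  have h6 : Real.exp (v * (((J - 1 : ℕ) : ℝ) * (((J - 1 : ℕ) : ℝ) + 1) / 2)) < Y / Real.log p0 := by
    rw [lt_div_iff₀ hlp]
    linarith
  have h7 := (Real.lt_log_iff_exp_lt (div_pos hY hlp)).mpr h6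
  rw [Nat.cast_sub hJ0, Nat.cast_one] at h7
  calc v * (((J : ℝ) - 1) * J / 2) = v * (((J : ℝ) - 1) * ((J : ℝ) - 1 + 1) / 2) := by ring
    _ < _ := h7

end Pool.Agent.Lib.MP_f9aece_nt_h6
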